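import Pool.Agent.Helper75.Slab.Goals

set_option autoImplicit false

/-!
# Packet SLAB-CONV
-/

open Set hiding ext
open MeasureTheory Filter Topology

namespace Pool.Agent.Helper6.Slab

open Pool.Agent.Helper75.Slab
open Pool.Agent.Helper75.Flow (LipField IsFlow IsJac EulerOn curlL)

/-! ### The slab -/

theorem convex_M : Convex ℝ M := by
  intro _ hx _ hy a b ha hb hab
  obtain ⟨h1, h2⟩ := hx
  obtain ⟨h3, h4⟩ := hy
  constructor
  · exact add_nonneg (mul_nonneg ha h1) (mul_nonneg hb h3)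
  · refine le_trans (add_le_add (mul_le_mul_of_nonneg_left h2 ha)
      (mul_le_mul_of_nonneg_left h4 hb)) ?_
    linarith

theorem isOpen_O : IsOpen O := by
  have h1 : Continuous fun x : E => x 2 := continuous_apply 2
  exact (isOpen_lt continuous_const h1).inter (isOpen_lt h1 continuous_const)

theorem O_sub_M : O ⊆ M := fun x hx => ⟨hx.1.le, hx.2.le⟩

theorem M_nhds {x : E} (hx : x ∈ O) : M ∈ 𝓝 x :=
  mem_of_superset (isOpen_O.mem_nhds hx) O_sub_M

theorem uniq_M : UniqueDiffOn ℝ M := by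
  apply uniqueDiffOn_convex convex_M
  refine ⟨fun _ => 1 / 2, ?_⟩
  rw [mem_interior_iff_mem_nhds]
  apply M_nhds
  constructor <;> norm_num

theorem clamp_mem (x : E) : clamp x ∈ M := by
  constructor
  · show 0 ≤ max 0 (min (x 2) 1)
    exact le_max_left _ _
  · show max 0 (min (x 2) 1) ≤ 1
    exact max_le zero_le_one (min_le_right _ _)

theorem clamp_eq {x : E} (hx : x ∈ M) : clamp x = x := by
  funext i
  fin_cases i
  · rfl
  · rfl
  · show max 0 (min (x 2) 1) = x 2
    rw [min_eq_left hx.2, max_eq_right hx.1]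

theorem clamp_lip (x y : E) : ‖clamp x - clamp y‖ ≤ ‖x - y‖ := by
  rw [pi_norm_le_iff_of_nonneg (norm_nonneg _)]
  intro i
  fin_cases i
  · exact norm_le_pi_norm (x - y) 0
  · exact norm_le_pi_norm (x - y) 1
  · show ‖max 0 (min (x 2) 1) - max 0 (min (y 2) 1)‖ ≤ ‖x - y‖
    refine le_trans ?_ (norm_le_pi_norm (x - y) 2)
    rw [Real.norm_eq_abs, Pi.sub_apply, Real.norm_eq_abs]
    calc |max 0 (min (x 2) 1) - max 0 (min (y 2) 1)| ≤ |min (x 2) 1 - min (y 2) 1| := by
          have := abs_max_sub_max_le_abs (min (x 2) 1) (min (y 2) 1) 0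
          rw [max_comm 0, max_comm 0]
          exact this
      _ ≤ |x 2 - y 2| := by
          have := abs_min_sub_min_le_max (x 2) 1 (y 2) 1
          simpa using this

theorem clamp_cont : Continuous clamp := by
  have : LipschitzWith 1 clamp := by
    apply LipschitzWith.of_dist_le_mul
    intro x y
    rw [dist_eq_norm, dist_eq_norm]
    simpa using clamp_lip x y
  exact this.continuous

/-! ### Linear algebra -/

theorem vec_sum (h : E) : h = ∑ j, h j • (Pi.single j (1 : ℝ) : E) := by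
  funext k
  simp [Finset.sum_apply, Pi.single_apply]

theorem map_vec {F : Type} [NormedAddCommGroup F] [NormedSpace ℝ F] (L : E →L[ℝ] F) (h : E) :
    L h = ∑ j, h j • L (Pi.single j (1 : ℝ)) := by
  conv_lhs => rw [vec_sum h]
  rw [map_sum]
  simp only [map_smul]

theorem opn {L : E →L[ℝ] ℝ} {C : ℝ} (hC : 0 ≤ C) (h : ∀ j, |L (Pi.single j (1 : ℝ))| ≤ C) :
    ‖L‖ ≤ 3 * C := by
  apply ContinuousLinearMap.opNorm_le_bound _ (by positivity)
  intro x
  rw [map_vec L x, Real.norm_eq_abs]
  calc |∑ j, x j • L (Pi.single j (1 : ℝ))| ≤ ∑ j, |x j • L (Pi.single j (1 : ℝ))| :=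
        Finset.abs_sum_le_sum_abs _ _
    _ ≤ ∑ _j : Fin 3, ‖x‖ * C := by
        apply Finset.sum_le_sum
        intro j _
        rw [smul_eq_mul, abs_mul]
        exact mul_le_mul (norm_le_pi_norm x j) (h j) (abs_nonneg _) (norm_nonneg _)
    _ = 3 * C * ‖x‖ := by
        rw [Finset.sum_const, Finset.card_univ, Fintype.card_fin]
        simp
        ring

/-- elementary operators -/
noncomputable def Bop (i j : Fin 3) : E →L[ℝ] E :=
  (ContinuousLinearMap.proj (R := ℝ) (φ := fun _ : Fin 3 => ℝ) j).smulRight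
    (Pi.single i (1 : ℝ) : E)

theorem op_sum (L : E →L[ℝ] E) : L = ∑ i, ∑ j, (L (Pi.single j (1 : ℝ)) i) • Bop i j := by
  apply ContinuousLinearMap.ext
  intro h
  funext k
  rw [map_vec L h, Finset.sum_comm]
  simp only [Finset.sum_apply, Pi.smul_apply, smul_eq_mul, _root_.sum_apply,
    _root_.smul_apply, Bop, ContinuousLinearMap.smulRight_apply,
    ContinuousLinearMap.proj_apply]
  apply Finset.sum_congr rfl
  intro j _
  rw [Finset.sum_eq_single k]
  · simp
    ring
  · intro i _ hik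
    simp [Pi.single_apply, Ne.symm hik]
  · intro hk
    exact absurd (Finset.mem_univ k) hk

/-! ### Derivatives of vector fields on the open slab -/

theorem hasF (v : E → E) {x : E} (hx : x ∈ O)
    (hd : ∀ i, DifferentiableWithinAt ℝ (fun y => v y i) M x) :
    HasFDerivAt v (ContinuousLinearMap.pi fun i => fderivWithin ℝ (fun y => v y i) M x) x := by
  rw [hasFDerivAt_pi']
  intro i
  exact (hd i).hasFDerivWithinAt.hasFDerivAt (M_nhds hx)

theorem fd_entry (v : E → E) {x : E} (hx : x ∈ O)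
    (hd : ∀ i, DifferentiableWithinAt ℝ (fun y => v y i) M x) (i j : Fin 3) :
    fderiv ℝ v x (Pi.single j 1) i = pd j (fun y => v y i) x := by
  rw [(hasF v hx hd).fderiv]
  rfl

theorem ext_eq (u : ℝ → E → E) (s : ℝ) {x : E} (hx : x ∈ M) : ext u s x = u s x := by
  unfold ext
  rw [clamp_eq hx]

theorem ext_ev (u : ℝ → E → E) (s : ℝ) {x : E} (hx : x ∈ O) : ext u s =ᶠ[𝓝 x] u s := by
  filter_upwards [M_nhds hx] with y hy
  exact ext_eq u s hy

theorem conv : G_CONV := by
  intro t u ht hu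
  obtain ⟨hv, ⟨C, hC⟩, hcu, hcd, p, hp2, hcp, hcpp, -, heq⟩ := hu
  have hC0 : (0 : ℝ) ≤ |C| := abs_nonneg C
  have hb : ∀ s ∈ Icc 0 t, ∀ i, ∀ x ∈ M, |u s x i| ≤ |C| := by
    intro s hs i x hx
    have := (hC s hs i x hx).1
    have h2 : |u s x i| ≤ C := by simpa using this
    exact le_trans h2 (le_abs_self C)
  have hb' : ∀ s ∈ Icc 0 t, ∀ i j, ∀ x ∈ M, |pd j (fun z => u s z i) x| ≤ |C| := by
    intro s hs i j x hx
    have := (hC s hs i x hx).2 j
    have h0 : pd j (fun z => (0 : E → E) z i) x = 0 := by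
      have : (fun z => (0 : E → E) z i) = fun _ => (0 : ℝ) := rfl
      rw [this]
      simp [pd]
    rw [h0, sub_zero] at this
    exact le_trans this (le_abs_self C)
  have hdiff : ∀ s ∈ Icc 0 t, ∀ i, ∀ x ∈ M, DifferentiableWithinAt ℝ (fun y => u s y i) M x := by
    intro s hs i x hx
    exact ((hv s hs).1 i).differentiableOn (by norm_num) x hx
  have hlipM : ∀ s ∈ Icc 0 t, ∀ x ∈ M, ∀ y ∈ M, ‖u s x - u s y‖ ≤ 3 * |C| * ‖x - y‖ := by
    intro s hs x hx y hy
    rw [pi_norm_le_iff_of_nonneg (by positivity)]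
    intro i
    have := convex_M.norm_image_sub_le_of_norm_fderivWithin_le (f := fun y => u s y i)
      (C := 3 * |C|) (x := y) (y := x) (fun z hz => hdiff s hs i z hz)
      (fun z hz => opn hC0 fun j => hb' s hs i j z hz) hy hx
    exact this
  have hlip : ∀ s ∈ Icc 0 t, ∀ x y, ‖ext u s x - ext u s y‖ ≤ 3 * |C| * ‖x - y‖ := by
    intro s hs x y
    refine le_trans (hlipM s hs _ (clamp_mem x) _ (clamp_mem y)) ?_
    exact mul_le_mul_of_nonneg_left (clamp_lip x y) (by positivity)
  have hF : ∀ s ∈ Icc 0 t, ∀ x ∈ O, HasFDerivAt (ext u s)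
      (ContinuousLinearMap.pi fun i => fderivWithin ℝ (fun y => u s y i) M x) x := by
    intro s hs x hx
    refine (hasF (u s) hx fun i => hdiff s hs i x (O_sub_M hx)).congr_of_eventuallyEq ?_
    exact ext_ev u s hx
  have hE : ∀ s ∈ Icc 0 t, ∀ x ∈ O, ∀ i j,
      fderiv ℝ (ext u s) x (Pi.single j 1) i = pd j (fun y => u s y i) x := by
    intro s hs x hx i j
    rw [(hF s hs x hx).fderiv]
    rfl
  -- the pressure gradient
  have hpc1 : ∀ s ∈ Icc 0 t, ∀ i, ContDiffOn ℝ 1 (pd i (p s)) M := by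
    intro s hs i
    have h1 : ContDiffOn ℝ 1 (fun x => fderivWithin ℝ (p s) M x) M :=
      (hp2 s hs).fderivWithin uniq_M (by norm_num)
    exact h1.clm_apply contDiffOn_const
  have hpd : ∀ s ∈ Icc 0 t, ∀ i, ∀ x ∈ M, DifferentiableWithinAt ℝ (pd i (p s)) M x := by
    intro s hs i x hx
    exact (hpc1 s hs i).differentiableOn (by norm_num) x hx
  have hG : ∀ s ∈ Icc 0 t, ∀ x ∈ O, HasFDerivAt (fun y i => pd i (p s) y)
      (ContinuousLinearMap.pi fun i => fderivWithin ℝ (fun y => pd i (p s) y) M x) x := by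
    intro s hs x hx
    exact hasF (fun y i => pd i (p s) y) hx fun i => hpd s hs i x (O_sub_M hx)
  have hGE : ∀ s ∈ Icc 0 t, ∀ x ∈ O, ∀ i j : Fin 3,
      fderiv ℝ (fun y (i : Fin 3) => pd i (p s) y) x (Pi.single j 1) i
        = pd j (pd i (p s)) x := by
    intro s hs x hx i j
    rw [(hG s hs x hx).fderiv]
    rfl
  have hsym : ∀ s ∈ Icc 0 t, ∀ x ∈ O, ∀ i j : Fin 3,
      pd j (pd i (p s)) x = pd i (pd j (p s)) x := by
    intro s hs x hx
    have hc : ContDiffAt ℝ 2 (p s) x := (hp2 s hs).contDiffAt (M_nhds hx)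
    have hs2 : IsSymmSndFDerivAt ℝ (p s) x := by
      apply hc.isSymmSndFDerivAt
      simp
    have key : ∀ i j : Fin 3, pd j (pd i (p s)) x
        = fderiv ℝ (fderiv ℝ (p s)) x (Pi.single j 1) (Pi.single i 1) := by
      intro i j
      have e1 : pd i (p s) =ᶠ[𝓝 x] fun y => fderiv ℝ (p s) y (Pi.single i 1) := by
        filter_upwards [isOpen_O.mem_nhds hx] with y hy
        show fderivWithin ℝ (p s) M y _ = _
        rw [fderivWithin_of_mem_nhds (M_nhds hy)]
      show fderivWithin ℝ (pd i (p s)) M x _ = _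
      rw [fderivWithin_of_mem_nhds (M_nhds hx), e1.fderiv_eq]
      have hd : DifferentiableAt ℝ (fderiv ℝ (p s)) x := by
        have : ContDiffAt ℝ 1 (fderiv ℝ (p s)) x := hc.fderiv_right (by norm_num)
        exact this.differentiableAt (by norm_num)
      have h3 := (hd.hasFDerivAt.clm_apply (hasFDerivAt_const (Pi.single i (1 : ℝ) : E) x)).fderiv
      rw [h3]
      simp
    intro i j
    rw [key i j, key j i]
    exact hs2 _ _
  refine ⟨10 * (|C| + 1), fun s x i => pd i (p s) x, ⟨ht, ⟨by positivity, ?_, ?_⟩, isOpen_O, ?_,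
    ?_, ?_, ?_, ?_, ?_, ?_, ?_⟩, ?_, ?_⟩
  · -- continuity of the extended field
    rw [continuousOn_pi]
    intro i
    have h1 : ContinuousOn (fun z : ℝ × E => ((z.1, clamp z.2) : ℝ × E)) (Icc 0 t ×ˢ univ) :=
      (continuous_fst.prodMk (clamp_cont.comp continuous_snd)).continuousOn
    have h2 : MapsTo (fun z : ℝ × E => ((z.1, clamp z.2) : ℝ × E)) (Icc 0 t ×ˢ univ)
        (Icc 0 t ×ˢ M) := fun z hz => ⟨hz.1, clamp_mem z.2⟩
    exact (hcu i).comp h1 h2
  · intro s hs x y
    refine le_trans (hlip s hs x y) ?_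
    apply mul_le_mul_of_nonneg_right _ (norm_nonneg _)
    linarith
  · exact fun s hs x hx => (hF s hs x hx).differentiableAt
  · have h1 : ContinuousOn (fun z : ℝ × E => ∑ i, ∑ j,
        (pd j (fun y => u z.1 y i) z.2) • Bop i j) (Icc 0 t ×ˢ O) := by
      refine continuousOn_finset_sum _ fun i _ => continuousOn_finset_sum _ fun j _ => ?_
      exact ((hcd i j).mono (prod_mono_right O_sub_M)).smul continuousOn_const
    refine h1.congr ?_
    intro z hz
    show fderiv ℝ (ext u z.1) z.2 = _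
    rw [op_sum (fderiv ℝ (ext u z.1) z.2)]
    refine Finset.sum_congr rfl fun i _ => Finset.sum_congr rfl fun j _ => ?_
    rw [hE z.1 hz.1 z.2 hz.2 i j]
  · intro s hs x hx
    have := (hv s hs).2.2.1 x (O_sub_M hx)
    rw [← this]
    exact Finset.sum_congr rfl fun i _ => hE s hs x hx i i
  · exact fun s hs x hx => (hG s hs x hx).differentiableAt
  · rw [continuousOn_pi]
    intro i
    exact (hcp i).mono (prod_mono_right O_sub_M)
  · have h1 : ContinuousOn (fun z : ℝ × E => ∑ i, ∑ j,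
        (pd j (pd i (p z.1)) z.2) • Bop i j) (Icc 0 t ×ˢ O) := by
      refine continuousOn_finset_sum _ fun i _ => continuousOn_finset_sum _ fun j _ => ?_
      exact ((hcpp i j).mono (prod_mono_right O_sub_M)).smul continuousOn_const
    refine h1.congr ?_
    intro z hz
    show fderiv ℝ (fun y (i : Fin 3) => pd i (p z.1) y) z.2 = _
    rw [op_sum (fderiv ℝ (fun y (i : Fin 3) => pd i (p z.1) y) z.2)]
    refine Finset.sum_congr rfl fun i _ => Finset.sum_congr rfl fun j _ => ?_
    rw [hGE z.1 hz.1 z.2 hz.2 i j]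
  · intro s hs x hx i j
    show fderiv ℝ (fun y (i : Fin 3) => pd i (p s) y) x (Pi.single j 1) i
      = fderiv ℝ (fun y (i : Fin 3) => pd i (p s) y) x (Pi.single i 1) j
    rw [hGE s hs x hx i j, hGE s hs x hx j i]
    exact hsym s hs x hx i j
  · intro s hs x hx
    rw [hasDerivWithinAt_pi]
    intro i
    have hxM := O_sub_M hx
    have e1 : (-(fderiv ℝ (ext u s) x (ext u s x)) - fun i => pd i (p s) x) i
        = -(∑ j, u s x j * pd j (fun y => u s y i) x) - pd i (p s) x := by
      have e2 : fderiv ℝ (ext u s) x (ext u s x) i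
          = ∑ j, u s x j * pd j (fun y => u s y i) x := by
        rw [map_vec (fderiv ℝ (ext u s) x) (ext u s x), Finset.sum_apply]
        refine Finset.sum_congr rfl fun j _ => ?_
        rw [Pi.smul_apply, smul_eq_mul, hE s hs x hx i j, ext_eq u s hxM]
      show -(fderiv ℝ (ext u s) x (ext u s x) i) - pd i (p s) x = _
      rw [e2]
    rw [e1]
    refine (heq s hs x hxM i).congr_of_mem ?_ hs
    intro τ _
    show ext u τ x i = u τ x i
    rw [ext_eq u τ hxM]
  · intro s hs x
    rw [pi_norm_le_iff_of_nonneg (by positivity)]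
    intro i
    rw [Real.norm_eq_abs]
    refine le_trans (hb s hs i _ (clamp_mem x)) ?_
    linarith
  · intro s hs x hx
    unfold curl curlL
    rw [hE s hs x hx, hE s hs x hx, hE s hs x hx, hE s hs x hx, hE s hs x hx, hE s hs x hx]

end Pool.Agent.Helper6.Slab
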